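import Pool.Agent.K7.H25.GD.Stm

/-!
# Project GD, job NBR: in a graph of diameter two with unique common neighbours and without
dominating vertex no closed neighbourhood is a clique
-/

set_option autoImplicit false

namespace Pool.Agent.K7.H8.GDNBR

open Pool.Agent.K7.H25.GD

theorem t : StNbr := by
  intro V _ G hG hD z
  by_contra hcon
  push Not at hcon
  obtain ⟨hL, hT⟩ := hG
  obtain ⟨x0, hx0, hzx0⟩ := hD z
  obtain ⟨y0, hzy0, hxy0⟩ := hT z x0 (Ne.symm hx0) hzx0
  obtain ⟨w, hw, hy0w⟩ := hD y0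
  have hwz : w ≠ z := by
    rintro rfl
    exact hy0w hzy0.symm
  have hzw : ¬ G.Adj z w := fun h => hy0w (hcon y0 w (Ne.symm hw) hzy0 h)
  obtain ⟨y1, hzy1, hwy1⟩ := hT z w (Ne.symm hwz) hzw
  have h01 : y0 ≠ y1 := by
    rintro rfl
    exact hy0w hwy1.symm
  have hy01 : G.Adj y0 y1 := hcon y0 y1 h01 hzy0 hzy1
  by_cases hxw : G.Adj x0 w
  · have h := hL w y0 x0 y1 hw (fun h => hy0w h.symm) hxw.symm hxy0.symm hwy1 hy01
    rw [h] at hzx0
    exact hzx0 hzy1
  · have hx0w : x0 ≠ w := by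
      rintro rfl
      exact hy0w hxy0.symm
    obtain ⟨t, hxt, hwt⟩ := hT x0 w hx0w hxw
    have htz : t ≠ z := by
      rintro rfl
      exact hzx0 hxt.symm
    by_cases hzt : G.Adj z t
    · have h1 := hL z x0 y0 t (Ne.symm hx0) hzx0 hzy0 hxy0 hzt hxt
      have h2 := hL z w y1 t (Ne.symm hwz) hzw hzy1 hwy1 hzt hwt
      exact h01 (h1.trans h2.symm)
    · obtain ⟨y2, hzy2, hty2⟩ := hT z t (Ne.symm htz) hzt
      have e0 : y0 = y2 := by
        by_contra hne
        have h3 : G.Adj y0 y2 := hcon y0 y2 hne hzy0 hzy2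
        have h4 : ¬ G.Adj t y0 := fun h => hne (hL z t y0 y2 (Ne.symm htz) hzt hzy0 h hzy2 hty2)
        have h5 : t ≠ y0 := by
          rintro rfl
          exact hzt hzy0
        have h6 := hL t y0 x0 y2 h5 h4 hxt.symm hxy0.symm hty2 h3
        rw [h6] at hzx0
        exact hzx0 hzy2
      have e1 : y1 = y2 := by
        by_contra hne
        have h3 : G.Adj y1 y2 := hcon y1 y2 hne hzy1 hzy2
        have h4 : ¬ G.Adj t y1 := fun h => hne (hL z t y1 y2 (Ne.symm htz) hzt hzy1 h hzy2 hty2)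
        have h5 : t ≠ y1 := by
          rintro rfl
          exact hzt hzy1
        have h6 := hL t y1 w y2 h5 h4 hwt.symm hwy1.symm hty2 h3
        rw [h6] at hzw
        exact hzw hzy2
      exact h01 (e0.trans e1.symm)

end Pool.Agent.K7.H8.GDNBR
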