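import Pool.Agent.K7.H24.KT.Stm

/-!
# Project KT, job BAD: almost all quadruples are generic
-/

set_option autoImplicit false

open Finset Polynomial

namespace Pool.Agent.K7.H8.KTBAD

open Pool.Agent.K7.H24.KT

section IP

variable {F : Type} [Field F]

/-- `f` is a polynomial of degree at most `d`, with coefficient `c` in degree `d` -/
def IP (d : ℕ) (c : F) (f : F → F) : Prop :=
  ∃ p : F[X], p.natDegree ≤ d ∧ p.coeff d = c ∧ ∀ t, p.eval t = f t

theorem IP.con (a : F) : IP 0 a (fun _ => a) := ⟨C a, by simp, by simp, by simp⟩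

theorem IP.up {d e : ℕ} {c : F} {f : F → F} (h : IP d c f) (hde : d < e) : IP e 0 f := by
  obtain ⟨p, h1, -, h3⟩ := h
  exact ⟨p, h1.trans hde.le, coeff_eq_zero_of_natDegree_lt (h1.trans_lt hde), h3⟩

theorem IP.lin (a b : F) : IP 1 b (fun t => a + b * t) := by
  refine ⟨C a + C b * X, ?_, ?_, ?_⟩
  · refine (natDegree_add_le _ _).trans (max_le (by simp) ?_)
    exact (natDegree_C_mul_le b X).trans natDegree_X_le
  · simp
  · intro t
    simp

theorem IP.mul {d e : ℕ} {c c' : F} {f g : F → F} (hf : IP d c f) (hg : IP e c' g) :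
    IP (d + e) (c * c') (fun t => f t * g t) := by
  obtain ⟨p, h1, h2, h3⟩ := hf
  obtain ⟨q, k1, k2, k3⟩ := hg
  refine ⟨p * q, natDegree_mul_le_of_le h1 k1, ?_, fun t => ?_⟩
  · rw [coeff_mul_add_eq_of_natDegree_le h1 k1, h2, k2]
  · rw [eval_mul, h3, k3]

theorem IP.sub {d : ℕ} {c c' : F} {f g : F → F} (hf : IP d c f) (hg : IP d c' g) :
    IP d (c - c') (fun t => f t - g t) := by
  obtain ⟨p, h1, h2, h3⟩ := hf
  obtain ⟨q, k1, k2, k3⟩ := hg
  refine ⟨p - q, (natDegree_sub_le _ _).trans (max_le h1 k1), ?_, fun t => ?_⟩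
  · rw [coeff_sub, h2, k2]
  · rw [eval_sub, h3, k3]

theorem IP.of {d : ℕ} {c c' : F} {f g : F → F} (hf : IP d c f) (hc : c = c') (h : ∀ t, f t = g t) :
    IP d c' g := by
  obtain ⟨p, h1, h2, h3⟩ := hf
  exact ⟨p, h1, h2.trans hc, fun t => (h3 t).trans (h t)⟩

theorem IP.roots {d : ℕ} {c : F} {f : F → F} (hf : IP d c f) (hc : c ≠ 0) (T : Finset Fˣ)
    (hT : ∀ t ∈ T, f (t : F) = 0) : T.card ≤ d := by
  classical
  obtain ⟨p, h1, h2, h3⟩ := hf
  have hp : p ≠ 0 := by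
    rintro rfl
    rw [coeff_zero] at h2
    exact hc h2.symm
  calc T.card = (T.image (fun t : Fˣ => (t : F))).card :=
        (card_image_of_injective T Units.val_injective).symm
    _ ≤ p.roots.toFinset.card := by
        refine card_le_card fun a ha => ?_
        obtain ⟨t, ht, rfl⟩ := mem_image.1 ha
        rw [Multiset.mem_toFinset, mem_roots hp, IsRoot.def, h3]
        exact hT t ht
    _ ≤ Multiset.card p.roots := Multiset.toFinset_card_le _
    _ ≤ p.natDegree := card_roots' p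
    _ ≤ d := h1

end IP

variable {F : Type} [Field F] [Fintype F]

/-- the predicate `B` holds for few quadruples -/
def Few (B : Fˣ × Fˣ × Fˣ × Fˣ → Prop) (m : ℕ) : Prop :=
  ∀ S : Finset (Fˣ × Fˣ × Fˣ × Fˣ), (∀ q ∈ S, B q) → S.card ≤ m * Fintype.card F ^ 3

theorem Few.mono {B B' : Fˣ × Fˣ × Fˣ × Fˣ → Prop} {m : ℕ} (h : Few B' m) (hB : ∀ q, B q → B' q) :
    Few B m := fun S hS => h S fun q hq => hB q (hS q hq)

theorem Few.le {B : Fˣ × Fˣ × Fˣ × Fˣ → Prop} {m n : ℕ} (h : Few B m) (hmn : m ≤ n) : Few B n :=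
  fun S hS => (h S hS).trans (Nat.mul_le_mul_right _ hmn)

theorem Few.or {A B : Fˣ × Fˣ × Fˣ × Fˣ → Prop} {m n : ℕ} (hA : Few A m) (hB : Few B n) :
    Few (fun q => A q ∨ B q) (m + n) := by
  classical
  intro S hS
  rw [← card_filter_add_card_filter_not (s := S) A, add_mul]
  refine add_le_add (hA _ fun q hq => (mem_filter.1 hq).2) (hB _ fun q hq => ?_)
  rw [mem_filter] at hq
  exact (hS q hq.1).resolve_left hq.2

theorem Few.not_and {A B : Fˣ × Fˣ × Fˣ × Fˣ → Prop} {m n : ℕ} (hA : Few (fun q => ¬ A q) m)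
    (hB : Few (fun q => ¬ B q) n) : Few (fun q => ¬ (A q ∧ B q)) (m + n) :=
  (hA.or hB).mono fun q h => by
    by_cases hq : A q
    · exact Or.inr fun hb => h ⟨hq, hb⟩
    · exact Or.inl hq

theorem few_not_forall {A : ℕ → Fˣ × Fˣ × Fˣ × Fˣ → Prop} {m : ℕ} (n : ℕ)
    (h : ∀ k < n, Few (fun q => ¬ A k q) m) : Few (fun q => ¬ ∀ k < n, A k q) (n * m) := by
  induction n with
  | zero =>
    intro S hS
    have : S = ∅ := by
      rw [eq_empty_iff_forall_notMem]
      intro q hq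
      exact hS q hq fun k hk => absurd hk (Nat.not_lt_zero k)
    rw [this]
    simp
  | succ n ih =>
    have h1 := (ih fun k hk => h k (Nat.lt_succ_of_lt hk)).or (h n (Nat.lt_succ_self n))
    rw [Nat.succ_mul]
    refine h1.mono fun q hq => ?_
    by_contra hcon
    push Not at hcon
    refine hq fun k hk => ?_
    rcases Nat.lt_succ_iff_lt_or_eq.1 hk with hk | rfl
    · exact hcon.1 k hk
    · exact hcon.2

theorem card_le_cube (S : Finset (Fˣ × Fˣ × Fˣ)) : S.card ≤ Fintype.card F ^ 3 := by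
  classical
  have h1 : Fintype.card Fˣ ≤ Fintype.card F := Fintype.card_le_of_injective _ Units.val_injective
  refine (card_le_univ S).trans ?_
  rw [Fintype.card_prod, Fintype.card_prod]
  calc Fintype.card Fˣ * (Fintype.card Fˣ * Fintype.card Fˣ) ≤
      Fintype.card F * (Fintype.card F * Fintype.card F) := by gcongr
    _ = _ := by ring

/-- counting in the last coordinate -/
theorem few_last {B : Fˣ × Fˣ × Fˣ × Fˣ → Prop} {d : ℕ}
    (h : ∀ (x y z : Fˣ) (T : Finset Fˣ), (∀ t ∈ T, B (x, y, z, t)) → T.card ≤ d) : Few B d := by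
  classical
  intro S hS
  let g : Fˣ × Fˣ × Fˣ × Fˣ → Fˣ × Fˣ × Fˣ := fun q => (q.1, q.2.1, q.2.2.1)
  have h1 : S.card ≤ d * (S.image g).card := by
    refine card_le_mul_card_image S d fun a _ => ?_
    obtain ⟨x, y, z⟩ := a
    calc (S.filter fun q => g q = (x, y, z)).card =
        ((S.filter fun q => g q = (x, y, z)).image fun q => q.2.2.2).card := by
          refine (card_image_of_injOn ?_).symm
          rintro ⟨a, b, c, t⟩ hq ⟨a', b', c', t'⟩ hq' htt
          have e1 := (mem_filter.1 hq).2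
          have e2 := (mem_filter.1 hq').2
          simp only [g, Prod.mk.injEq] at e1 e2 htt ⊢
          exact ⟨e1.1.trans e2.1.symm, e1.2.1.trans e2.2.1.symm, e1.2.2.trans e2.2.2.symm, htt⟩
      _ ≤ d := by
          refine h x y z _ fun t ht => ?_
          obtain ⟨⟨a, b, c, t'⟩, hq, rfl⟩ := mem_image.1 ht
          rw [mem_filter] at hq
          have e1 := hq.2
          simp only [g, Prod.mk.injEq] at e1
          obtain ⟨rfl, rfl, rfl⟩ := e1
          exact hS _ hq.1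
  exact h1.trans (Nat.mul_le_mul_left _ (card_le_cube _))

/-- counting in the third coordinate -/
theorem few_third {B : Fˣ × Fˣ × Fˣ × Fˣ → Prop} {d : ℕ}
    (h : ∀ (x y t : Fˣ) (T : Finset Fˣ), (∀ z ∈ T, B (x, y, z, t)) → T.card ≤ d) : Few B d := by
  classical
  intro S hS
  let g : Fˣ × Fˣ × Fˣ × Fˣ → Fˣ × Fˣ × Fˣ := fun q => (q.1, q.2.1, q.2.2.2)
  have h1 : S.card ≤ d * (S.image g).card := by
    refine card_le_mul_card_image S d fun a _ => ?_
    obtain ⟨x, y, z⟩ := a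
    calc (S.filter fun q => g q = (x, y, z)).card =
        ((S.filter fun q => g q = (x, y, z)).image fun q => q.2.2.1).card := by
          refine (card_image_of_injOn ?_).symm
          rintro ⟨a, b, c, t⟩ hq ⟨a', b', c', t'⟩ hq' htt
          have e1 := (mem_filter.1 hq).2
          have e2 := (mem_filter.1 hq').2
          simp only [g, Prod.mk.injEq] at e1 e2 htt ⊢
          exact ⟨e1.1.trans e2.1.symm, e1.2.1.trans e2.2.1.symm, htt, e1.2.2.trans e2.2.2.symm⟩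
      _ ≤ d := by
          refine h x y z _ fun t ht => ?_
          obtain ⟨⟨a, b, c, t'⟩, hq, rfl⟩ := mem_image.1 ht
          rw [mem_filter] at hq
          have e1 := hq.2
          simp only [g, Prod.mk.injEq] at e1
          obtain ⟨rfl, rfl, rfl⟩ := e1
          exact hS _ hq.1
  exact h1.trans (Nat.mul_le_mul_left _ (card_le_cube _))

/-- a polynomial condition in the last coordinate with nonzero leading coefficient -/
theorem few_t {d : ℕ} {c : Fˣ → Fˣ → Fˣ → F} {f : Fˣ → Fˣ → Fˣ → F → F}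
    (hI : ∀ x y z, IP d (c x y z) (f x y z)) (hc : ∀ x y z, c x y z ≠ 0) :
    Few (fun q : Fˣ × Fˣ × Fˣ × Fˣ => f q.1 q.2.1 q.2.2.1 (q.2.2.2 : F) = 0) d :=
  few_last fun x y z T hT => (hI x y z).roots (hc x y z) T hT

/-- a polynomial condition in the last coordinate whose leading coefficient vanishes for few `z` -/
theorem few_te {d e : ℕ} {c : Fˣ → Fˣ → F → F} {c' : Fˣ → Fˣ → F} {f : Fˣ → Fˣ → Fˣ → F → F}
    (hI : ∀ x y z : Fˣ, IP d (c x y (z : F)) (f x y z)) (hI' : ∀ x y, IP e (c' x y) (c x y))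
    (hc : ∀ x y, c' x y ≠ 0) :
    Few (fun q : Fˣ × Fˣ × Fˣ × Fˣ => f q.1 q.2.1 q.2.2.1 (q.2.2.2 : F) = 0) (e + d) := by
  have h1 : Few (fun q : Fˣ × Fˣ × Fˣ × Fˣ => c q.1 q.2.1 (q.2.2.1 : F) = 0) e :=
    few_third fun x y t T hT => (hI' x y).roots (hc x y) T hT
  have h2 : Few (fun q : Fˣ × Fˣ × Fˣ × Fˣ => c q.1 q.2.1 (q.2.2.1 : F) ≠ 0 ∧
      f q.1 q.2.1 q.2.2.1 (q.2.2.2 : F) = 0) d := by
    refine few_last fun x y z T hT => ?_
    by_cases h0 : c x y (z : F) = 0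
    · have : T = ∅ := by
        rw [eq_empty_iff_forall_notMem]
        intro t ht
        exact (hT t ht).1 h0
      rw [this]
      simp
    · exact (hI x y z).roots h0 T fun t ht => (hT t ht).2
  refine (h1.or h2).mono fun q hq => ?_
  by_cases h0 : c q.1 q.2.1 (q.2.2.1 : F) = 0
  · exact Or.inl h0
  · exact Or.inr ⟨h0, hq⟩

section conditions

variable (w : F)

theorem ib (y : F) (k : ℕ) : IP 1 (-w ^ (3 - k)) (fun t => qb w y t k) :=
  (IP.lin y (-w ^ (3 - k))).of rfl fun t => by unfold qb; ring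

theorem ic (x y z : F) (k : ℕ) : IP 1 (w ^ (3 - k) * x) (fun t => qc w x y z t k) :=
  (IP.lin (-(w ^ k * z * y)) (w ^ (3 - k) * (x : F))).of rfl fun t => by unfold qc; ring

theorem i0 (x y z : F) : IP 1 (-z) (fun t => q0 x y z t) :=
  (IP.lin (x * y) (-z)).of rfl fun t => by unfold q0; ring

theorem i1 (x y z : F) : IP 1 (-x ^ 2) (fun t => q1 x y z t) :=
  (IP.lin (z ^ 2 * y) (-x ^ 2)).of rfl fun t => by unfold q1; ring

theorem iX : IP 1 (1 : F) (fun t => t) := (IP.lin 0 1).of rfl fun t => by ring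

theorem i2 (x y z : F) : IP 2 x (fun t => q2 x y z t) :=
  ((((IP.con x).mul iX).mul iX).sub ((IP.con (z * y ^ 2)).up (by norm_num : 0 < 0 + 1 + 1))).of
    (by ring) fun t => by unfold q2; ring

end conditions

theorem t : StBad := by
  intro F _ _ w hw hw1 S hS
  have hw3 : w ^ 3 = 1 := by linear_combination (w - 1) * hw
  have hw0 : w ≠ 0 := by
    rintro rfl
    norm_num at hw
  have hp : ∀ n : ℕ, w ^ n ≠ 0 := fun n => pow_ne_zero n hw0
  have hw2 : w ^ 2 ≠ 1 := by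
    intro h
    apply hw1
    calc w = w ^ 2 * w := by rw [h, one_mul]
      _ = w ^ 3 := by ring
      _ = 1 := hw3
  have hw21 : w ^ 2 ≠ w := by
    intro h
    apply hw1
    have h1 : w * w = w * 1 := by rw [mul_one, ← pow_two, h]
    exact mul_left_cancel₀ hw0 h1
  -- the conditions
  have hA : Few (fun q : Fˣ × Fˣ × Fˣ × Fˣ => ¬ ∀ k < 3, qa w (q.1 : F) (q.2.2.1 : F) k ≠ 0) (3 * 1) := by
    refine few_not_forall 3 fun k _ => ?_
    refine (few_third (d := 1) (B := fun q : Fˣ × Fˣ × Fˣ × Fˣ => qa w (q.1 : F) (q.2.2.1 : F) k = 0)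
      fun x y t T hT => ?_).mono fun q hq => not_not.1 hq
    exact ((IP.lin (-(x : F)) (w ^ k)).of rfl (g := fun z => qa w (x : F) z k)
      fun t => by unfold qa; ring).roots (hp k) T hT
  have hB : Few (fun q : Fˣ × Fˣ × Fˣ × Fˣ => ¬ ∀ k < 3, qb w (q.2.1 : F) (q.2.2.2 : F) k ≠ 0) (3 * 1) := by
    refine few_not_forall 3 fun k _ => ?_
    exact (few_t (fun x y z => ib w (y : F) k) fun x y z => neg_ne_zero.2 (hp _)).mono
      fun q hq => not_not.1 hq
  have hC : Few (fun q : Fˣ × Fˣ × Fˣ × Fˣ =>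
      ¬ ∀ k < 3, qc w (q.1 : F) (q.2.1 : F) (q.2.2.1 : F) (q.2.2.2 : F) k ≠ 0) (3 * 1) := by
    refine few_not_forall 3 fun k _ => ?_
    exact (few_t (fun x y z => ic w (x : F) (y : F) (z : F) k)
      fun x y z => mul_ne_zero (hp _) x.ne_zero).mono fun q hq => not_not.1 hq
  have h0 : Few (fun q : Fˣ × Fˣ × Fˣ × Fˣ =>
      ¬ q0 (q.1 : F) (q.2.1 : F) (q.2.2.1 : F) (q.2.2.2 : F) ≠ 0) 1 :=
    (few_t (fun x y z => i0 (x : F) (y : F) (z : F)) fun x y z => neg_ne_zero.2 z.ne_zero).mono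
      fun q hq => not_not.1 hq
  have h1 : Few (fun q : Fˣ × Fˣ × Fˣ × Fˣ =>
      ¬ q1 (q.1 : F) (q.2.1 : F) (q.2.2.1 : F) (q.2.2.2 : F) ≠ 0) 1 :=
    (few_t (fun x y z => i1 (x : F) (y : F) (z : F))
      fun x y z => neg_ne_zero.2 (pow_ne_zero _ x.ne_zero)).mono fun q hq => not_not.1 hq
  have h2 : Few (fun q : Fˣ × Fˣ × Fˣ × Fˣ =>
      ¬ q2 (q.1 : F) (q.2.1 : F) (q.2.2.1 : F) (q.2.2.2 : F) ≠ 0) 2 :=
    (few_t (c := fun (x _ _ : Fˣ) => (x : F)) (fun x y z => i2 (x : F) (y : F) (z : F))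
      fun x y z => x.ne_zero).mono
      fun q hq => not_not.1 hq
  have hD : Few (fun q : Fˣ × Fˣ × Fˣ × Fˣ => ¬ ∀ k < 3, ∀ l < k,
      qa w (q.1 : F) (q.2.2.1 : F) k * qb w (q.2.1 : F) (q.2.2.2 : F) k *
        qc w (q.1 : F) (q.2.1 : F) (q.2.2.1 : F) (q.2.2.2 : F) l ^ 2 ≠
      qa w (q.1 : F) (q.2.2.1 : F) l * qb w (q.2.1 : F) (q.2.2.2 : F) l *
        qc w (q.1 : F) (q.2.1 : F) (q.2.2.1 : F) (q.2.2.2 : F) k ^ 2) (3 * 8) := by
    refine few_not_forall 3 fun k hk => ?_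
    refine (few_not_forall k fun l hl => ?_).le (by omega : k * 4 ≤ 8)
    refine (few_te (d := 3) (e := 1)
      (f := fun x y z t => qa w (x : F) (z : F) k * qb w (y : F) t k * qc w (x : F) (y : F) (z : F) t l ^ 2 -
        qa w (x : F) (z : F) l * qb w (y : F) t l * qc w (x : F) (y : F) (z : F) t k ^ 2)
      (c := fun x y z => qa w (x : F) z k * (-w ^ (3 - k)) * ((w ^ (3 - l) * (x : F)) * (w ^ (3 - l) * (x : F))) -
        qa w (x : F) z l * (-w ^ (3 - l)) * ((w ^ (3 - k) * (x : F)) * (w ^ (3 - k) * (x : F))))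
      (c' := fun x y => w ^ k * (-w ^ (3 - k)) * ((w ^ (3 - l) * (x : F)) * (w ^ (3 - l) * (x : F))) -
        w ^ l * (-w ^ (3 - l)) * ((w ^ (3 - k) * (x : F)) * (w ^ (3 - k) * (x : F))))
      (fun x y z => ?_) (fun x y => ?_) fun x y => ?_).mono
      fun q hq => sub_eq_zero.2 (not_not.1 hq)
    · have e1 : IP (0 + 1 + (1 + 1)) _ _ := ((IP.con (qa w (x : F) (z : F) k)).mul (ib w (y : F) k)).mul
        ((ic w (x : F) (y : F) (z : F) l).mul (ic w (x : F) (y : F) (z : F) l))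
      have e2 : IP (0 + 1 + (1 + 1)) _ _ := ((IP.con (qa w (x : F) (z : F) l)).mul (ib w (y : F) l)).mul
        ((ic w (x : F) (y : F) (z : F) k).mul (ic w (x : F) (y : F) (z : F) k))
      exact (e1.sub e2).of rfl fun t => by ring
    · refine (IP.lin (-(x : F) * (-w ^ (3 - k)) * ((w ^ (3 - l) * (x : F)) * (w ^ (3 - l) * (x : F))) -
        -(x : F) * (-w ^ (3 - l)) * ((w ^ (3 - k) * (x : F)) * (w ^ (3 - k) * (x : F)))) _).of rfl fun z => ?_
      unfold qa
      ring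
    · have hx : (x : F) ≠ 0 := x.ne_zero
      have hcases : (k = 1 ∧ l = 0) ∨ (k = 2 ∧ l = 0) ∨ (k = 2 ∧ l = 1) := by omega
      rcases hcases with ⟨rfl, rfl⟩ | ⟨rfl, rfl⟩ | ⟨rfl, rfl⟩
      · have : w ^ 1 * (-w ^ (3 - 1)) * ((w ^ (3 - 0) * (x : F)) * (w ^ (3 - 0) * x)) -
            w ^ 0 * (-w ^ (3 - 0)) * ((w ^ (3 - 1) * x) * (w ^ (3 - 1) * x)) = x ^ 2 * (w - 1) := by
          norm_num
          linear_combination (x : F) ^ 2 * (-(w ^ 6 + w ^ 3 + 1) + (w ^ 4 + w)) * hw3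
        rw [this]
        exact mul_ne_zero (pow_ne_zero _ hx) (sub_ne_zero.2 hw1)
      · have : w ^ 2 * (-w ^ (3 - 2)) * ((w ^ (3 - 0) * (x : F)) * (w ^ (3 - 0) * x)) -
            w ^ 0 * (-w ^ (3 - 0)) * ((w ^ (3 - 2) * x) * (w ^ (3 - 2) * x)) = x ^ 2 * (w ^ 2 - 1) := by
          norm_num
          linear_combination (x : F) ^ 2 * (-(w ^ 6 + w ^ 3 + 1) + (w ^ 2)) * hw3
        rw [this]
        exact mul_ne_zero (pow_ne_zero _ hx) (sub_ne_zero.2 hw2)
      · have : w ^ 2 * (-w ^ (3 - 2)) * ((w ^ (3 - 1) * (x : F)) * (w ^ (3 - 1) * x)) -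
            w ^ 1 * (-w ^ (3 - 1)) * ((w ^ (3 - 2) * x) * (w ^ (3 - 2) * x)) = x ^ 2 * (w ^ 2 - w) := by
          norm_num
          linear_combination (x : F) ^ 2 * (-(w ^ 4 + w) + (w ^ 2)) * hw3
        rw [this]
        exact mul_ne_zero (pow_ne_zero _ hx) (sub_ne_zero.2 hw21)
  have hE : Few (fun q : Fˣ × Fˣ × Fˣ × Fˣ => ¬ ∀ k < 3,
      qa w (q.1 : F) (q.2.2.1 : F) k * qb w (q.2.1 : F) (q.2.2.2 : F) k ≠
        (q.1 : F) * (q.2.1 : F) * qc w (q.1 : F) (q.2.1 : F) (q.2.2.1 : F) (q.2.2.2 : F) k ^ 2) (3 * 2) := by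
    refine few_not_forall 3 fun k _ => ?_
    refine (few_t (d := 2)
      (f := fun x y z t => qa w (x : F) (z : F) k * qb w (y : F) t k -
        (x : F) * (y : F) * qc w (x : F) (y : F) (z : F) t k ^ 2)
      (c := fun x y z => 0 - (x : F) * (y : F) * ((w ^ (3 - k) * (x : F)) * (w ^ (3 - k) * (x : F))))
      (fun x y z => ?_) fun x y z => ?_).mono fun q hq => sub_eq_zero.2 (not_not.1 hq)
    · have e1 : IP 2 (0 : F) _ := ((IP.con (qa w (x : F) (z : F) k)).mul (ib w (y : F) k)).up (by norm_num)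
      have e2 : IP (0 + (1 + 1)) _ _ := (IP.con ((x : F) * (y : F))).mul
        ((ic w (x : F) (y : F) (z : F) k).mul (ic w (x : F) (y : F) (z : F) k))
      exact (e1.sub e2).of rfl fun t => by ring
    · rw [zero_sub]
      exact neg_ne_zero.2 (mul_ne_zero (mul_ne_zero x.ne_zero y.ne_zero)
        (mul_ne_zero (mul_ne_zero (hp _) x.ne_zero) (mul_ne_zero (hp _) x.ne_zero)))
  have hG : Few (fun q : Fˣ × Fˣ × Fˣ × Fˣ => ¬ ∀ k < 3,
      qa w (q.1 : F) (q.2.2.1 : F) k * qb w (q.2.1 : F) (q.2.2.2 : F) k ≠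
        (q.2.2.1 : F) * (q.2.2.2 : F) * qc w (q.1 : F) (q.2.1 : F) (q.2.2.1 : F) (q.2.2.2 : F) k ^ 2)
      (3 * 3) := by
    refine few_not_forall 3 fun k _ => ?_
    refine (few_t (d := 3)
      (f := fun x y z t => qa w (x : F) (z : F) k * qb w (y : F) t k -
        (z : F) * t * qc w (x : F) (y : F) (z : F) t k ^ 2)
      (c := fun x y z => 0 - (z : F) * 1 * ((w ^ (3 - k) * (x : F)) * (w ^ (3 - k) * (x : F))))
      (fun x y z => ?_) fun x y z => ?_).mono fun q hq => sub_eq_zero.2 (not_not.1 hq)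
    · have e1 : IP 3 (0 : F) _ := ((IP.con (qa w (x : F) (z : F) k)).mul (ib w (y : F) k)).up (by norm_num)
      have e2 : IP (0 + 1 + (1 + 1)) _ _ := ((IP.con (z : F)).mul iX).mul
        ((ic w (x : F) (y : F) (z : F) k).mul (ic w (x : F) (y : F) (z : F) k))
      exact (e1.sub e2).of rfl fun t => by ring
    · rw [zero_sub]
      exact neg_ne_zero.2 (mul_ne_zero (mul_ne_zero z.ne_zero one_ne_zero)
        (mul_ne_zero (mul_ne_zero (hp _) x.ne_zero) (mul_ne_zero (hp _) x.ne_zero)))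
  have hH : Few (fun q : Fˣ × Fˣ × Fˣ × Fˣ =>
      ¬ q1 (q.1 : F) (q.2.1 : F) (q.2.2.1 : F) (q.2.2.2 : F) *
          q2 (q.1 : F) (q.2.1 : F) (q.2.2.1 : F) (q.2.2.2 : F) ≠
        (q.1 : F) * (q.2.1 : F) * q0 (q.1 : F) (q.2.1 : F) (q.2.2.1 : F) (q.2.2.2 : F) ^ 2) 3 := by
    refine (few_t (d := 3)
      (f := fun x y z t => q1 (x : F) (y : F) (z : F) t * q2 (x : F) (y : F) (z : F) t -
        (x : F) * (y : F) * q0 (x : F) (y : F) (z : F) t ^ 2)
      (c := fun x y z => -(x : F) ^ 2 * (x : F) - 0)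
      (fun x y z => ?_) fun x y z => ?_).mono fun q hq => sub_eq_zero.2 (not_not.1 hq)
    · have e1 : IP (1 + 2) _ _ := (i1 (x : F) (y : F) (z : F)).mul (i2 (x : F) (y : F) (z : F))
      have e2 : IP (1 + 2) (0 : F) _ := ((IP.con ((x : F) * (y : F))).mul
        ((i0 (x : F) (y : F) (z : F)).mul (i0 (x : F) (y : F) (z : F)))).up (by norm_num)
      exact (e1.sub e2).of rfl fun t => by ring
    · rw [sub_zero]
      exact mul_ne_zero (neg_ne_zero.2 (pow_ne_zero _ x.ne_zero)) x.ne_zero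
  have hI : Few (fun q : Fˣ × Fˣ × Fˣ × Fˣ =>
      ¬ q1 (q.1 : F) (q.2.1 : F) (q.2.2.1 : F) (q.2.2.2 : F) *
          q2 (q.1 : F) (q.2.1 : F) (q.2.2.1 : F) (q.2.2.2 : F) ≠
        (q.2.2.1 : F) * (q.2.2.2 : F) *
          q0 (q.1 : F) (q.2.1 : F) (q.2.2.1 : F) (q.2.2.2 : F) ^ 2) (3 + 3) := by
    refine (few_te (d := 3) (e := 3)
      (f := fun x y z t => q1 (x : F) (y : F) (z : F) t * q2 (x : F) (y : F) (z : F) t -
        (z : F) * t * q0 (x : F) (y : F) (z : F) t ^ 2)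
      (c := fun x y z => -(x : F) ^ 2 * (x : F) - (z : F) * 1 * (-(z : F) * -(z : F)))
      (c' := fun x y => 0 - 1)
      (fun x y z => ?_) (fun x y => ?_) fun x y => ?_).mono fun q hq => sub_eq_zero.2 (not_not.1 hq)
    · have e1 : IP (1 + 2) _ _ := (i1 (x : F) (y : F) (z : F)).mul (i2 (x : F) (y : F) (z : F))
      have e2 : IP (0 + 1 + (1 + 1)) _ _ := ((IP.con (z : F)).mul iX).mul
        ((i0 (x : F) (y : F) (z : F)).mul (i0 (x : F) (y : F) (z : F)))
      exact (e1.sub e2).of rfl fun t => by ring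
    · have e1 : IP 3 0 (fun _ : F => -(x : F) ^ 2 * (x : F)) := (IP.con _).up (by norm_num)
      have e2 : IP (1 + 1 + 1) ((1 : F) * 1 * 1) _ := (iX.mul iX).mul iX
      exact (e1.sub e2).of (by ring) fun t => by ring
    · rw [zero_sub]
      exact neg_ne_zero.2 one_ne_zero
  have hJ : Few (fun q : Fˣ × Fˣ × Fˣ × Fˣ => ¬ ∀ k < 3,
      q1 (q.1 : F) (q.2.1 : F) (q.2.2.1 : F) (q.2.2.2 : F) *
          q2 (q.1 : F) (q.2.1 : F) (q.2.2.1 : F) (q.2.2.2 : F) *
          qc w (q.1 : F) (q.2.1 : F) (q.2.2.1 : F) (q.2.2.2 : F) k ^ 2 ≠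
        qa w (q.1 : F) (q.2.2.1 : F) k * qb w (q.2.1 : F) (q.2.2.2 : F) k *
          q0 (q.1 : F) (q.2.1 : F) (q.2.2.1 : F) (q.2.2.2 : F) ^ 2) (3 * 5) := by
    refine few_not_forall 3 fun k _ => ?_
    refine (few_t (d := 5)
      (f := fun x y z t => q1 (x : F) (y : F) (z : F) t * q2 (x : F) (y : F) (z : F) t *
          qc w (x : F) (y : F) (z : F) t k ^ 2 -
        qa w (x : F) (z : F) k * qb w (y : F) t k * q0 (x : F) (y : F) (z : F) t ^ 2)
      (c := fun x y z => -(x : F) ^ 2 * (x : F) * ((w ^ (3 - k) * (x : F)) * (w ^ (3 - k) * (x : F))) - 0)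
      (fun x y z => ?_) fun x y z => ?_).mono fun q hq => sub_eq_zero.2 (not_not.1 hq)
    · have e1 : IP (1 + 2 + (1 + 1)) _ _ :=
        ((i1 (x : F) (y : F) (z : F)).mul (i2 (x : F) (y : F) (z : F))).mul
          ((ic w (x : F) (y : F) (z : F) k).mul (ic w (x : F) (y : F) (z : F) k))
      have e2 : IP (1 + 2 + (1 + 1)) (0 : F) _ :=
        (((IP.con (qa w (x : F) (z : F) k)).mul (ib w (y : F) k)).mul
          ((i0 (x : F) (y : F) (z : F)).mul (i0 (x : F) (y : F) (z : F)))).up (by norm_num)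
      exact (e1.sub e2).of rfl fun t => by ring
    · rw [sub_zero]
      exact mul_ne_zero (mul_ne_zero (neg_ne_zero.2 (pow_ne_zero _ x.ne_zero)) x.ne_zero)
        (mul_ne_zero (mul_ne_zero (hp _) x.ne_zero) (mul_ne_zero (hp _) x.ne_zero))
  have key := hA.not_and (hB.not_and (hC.not_and (h0.not_and (h1.not_and (h2.not_and
    (hD.not_and (hE.not_and (hG.not_and (hH.not_and (hI.not_and hJ))))))))))
  have h3 := key S fun q hq => hS q hq
  exact h3.trans (Nat.mul_le_mul_right _ (by norm_num))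

end Pool.Agent.K7.H8.KTBAD
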