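import Pool.Agent.K7.H24.KT.Stm

/-!
# Project KT, job COPY: complete bipartite pairs and copies of `K_{t,t}`
-/

set_option autoImplicit false

open Finset

namespace Pool.Agent.K7.H8.KTCOPY

open Pool.Agent.K7.H24.KT SimpleGraph

variable {V : Type} {G : SimpleGraph V}

/-- the subgraph of a complete bipartite pair -/
def sub (G : SimpleGraph V) (P : Finset V × Finset V) : G.Subgraph where
  verts := {a | a ∈ P.1 ∨ a ∈ P.2}
  Adj a b := G.Adj a b ∧ ((a ∈ P.1 ∧ b ∈ P.2) ∨ (a ∈ P.2 ∧ b ∈ P.1))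
  adj_sub h := h.1
  edge_vert h := h.2.elim (fun h => Or.inl h.1) (fun h => Or.inr h.1)
  symm.symm := by
    rintro a b ⟨h1, h2⟩
    exact ⟨h1.symm, h2.elim (fun h => Or.inr ⟨h.2, h.1⟩) (fun h => Or.inl ⟨h.2, h.1⟩)⟩

theorem disj {t : ℕ} {P : Finset V × Finset V} (h : IsBi t G P) {a : V} (h1 : a ∈ P.1) (h2 : a ∈ P.2) :
    False := G.irrefl (h.2.2 a h1 a h2)

theorem sub_swap (P : Finset V × Finset V) : sub G P = sub G P.swap := by
  apply Subgraph.ext
  · ext a
    exact or_comm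
  · funext a b
    apply propext
    exact and_congr_right fun _ => or_comm

theorem isBi_swap {t : ℕ} {P : Finset V × Finset V} (h : IsBi t G P) : IsBi t G P.swap :=
  ⟨h.2.1, h.1, fun a ha b hb => (h.2.2 b hb a ha).symm⟩

/-- the subgraph determines the pair up to the order -/
theorem eq_of_sub_eq {t : ℕ} (ht : 1 ≤ t) {P Q : Finset V × Finset V} (hP : IsBi t G P)
    (hQ : IsBi t G Q) (h : sub G P = sub G Q) : Q = P ∨ Q = P.swap := by
  have hv : ∀ a, (a ∈ P.1 ∨ a ∈ P.2) ↔ (a ∈ Q.1 ∨ a ∈ Q.2) := fun a => by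
    have := congrArg (fun S : G.Subgraph => a ∈ S.verts) h
    exact iff_of_eq this
  have ha : ∀ a b, (G.Adj a b ∧ ((a ∈ P.1 ∧ b ∈ P.2) ∨ (a ∈ P.2 ∧ b ∈ P.1))) ↔
      (G.Adj a b ∧ ((a ∈ Q.1 ∧ b ∈ Q.2) ∨ (a ∈ Q.2 ∧ b ∈ Q.1))) := fun a b => by
    have := congrArg (fun S : G.Subgraph => S.Adj a b) h
    exact iff_of_eq this
  -- the core: a common vertex of the first classes gives equality
  have core : ∀ R : Finset V × Finset V, IsBi t G R →
      (∀ a, (a ∈ P.1 ∨ a ∈ P.2) ↔ (a ∈ R.1 ∨ a ∈ R.2)) →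
      (∀ a b, (G.Adj a b ∧ ((a ∈ P.1 ∧ b ∈ P.2) ∨ (a ∈ P.2 ∧ b ∈ P.1))) ↔
        (G.Adj a b ∧ ((a ∈ R.1 ∧ b ∈ R.2) ∨ (a ∈ R.2 ∧ b ∈ R.1)))) →
      ∀ a₀ ∈ P.1, a₀ ∈ R.1 → R = P := by
    intro R hR hv' ha' a₀ h1 h2
    have e2 : R.2 = P.2 := by
      ext b
      constructor
      · intro hb
        rcases ((ha' a₀ b).2 ⟨hR.2.2 a₀ h2 b hb, Or.inl ⟨h2, hb⟩⟩).2 with h3 | h3
        · exact h3.2
        · exact (disj hP h1 h3.1).elim
      · intro hb
        rcases ((ha' a₀ b).1 ⟨hP.2.2 a₀ h1 b hb, Or.inl ⟨h1, hb⟩⟩).2 with h3 | h3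
        · exact h3.2
        · exact (disj hR h2 h3.1).elim
    have e1 : R.1 = P.1 := by
      ext a
      constructor
      · intro hb
        rcases (hv' a).2 (Or.inl hb) with h3 | h3
        · exact h3
        · rw [← e2] at h3
          exact (disj hR hb h3).elim
      · intro hb
        rcases (hv' a).1 (Or.inl hb) with h3 | h3
        · exact h3
        · rw [e2] at h3
          exact (disj hP hb h3).elim
    exact Prod.ext e1 e2
  obtain ⟨a₀, ha₀⟩ : P.1.Nonempty := by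
    rw [← card_pos, hP.1]
    exact ht
  rcases (hv a₀).1 (Or.inl ha₀) with h1 | h1
  · exact Or.inl (core Q hQ hv ha a₀ ha₀ h1)
  · right
    have h2 := core Q.swap (isBi_swap hQ) (fun a => (hv a).trans or_comm)
      (fun a b => (ha a b).trans (and_congr_right fun _ => or_comm)) a₀ ha₀ h1
    rw [← h2, Prod.swap_swap]

theorem swap_ne {t : ℕ} (ht : 1 ≤ t) {P : Finset V × Finset V} (hP : IsBi t G P) : P ≠ P.swap := by
  intro h
  obtain ⟨a₀, ha₀⟩ : P.1.Nonempty := by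
    rw [← card_pos, hP.1]
    exact ht
  have h1 : P.1 = P.2 := congrArg Prod.fst h
  exact disj hP ha₀ (h1 ▸ ha₀)

/-- a pair gives a copy -/
theorem exists_copy {t : ℕ} {P : Finset V × Finset V} (hP : IsBi t G P) :
    ∃ f : (completeBipartiteGraph (Fin t) (Fin t)).Copy G,
      (∀ a, a ∈ P.1 ↔ ∃ i, f (Sum.inl i) = a) ∧ ∀ a, a ∈ P.2 ↔ ∃ i, f (Sum.inr i) = a := by
  let e := (Finset.equivFinOfCardEq hP.1).symm
  let e' := (Finset.equivFinOfCardEq hP.2.1).symm
  let g : Fin t ⊕ Fin t → V := Sum.elim (fun i => (e i : V)) (fun i => (e' i : V))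
  have hg : ∀ x y, (completeBipartiteGraph (Fin t) (Fin t)).Adj x y → G.Adj (g x) (g y) := by
    rintro (i | i) (j | j) h
    · simp at h
    · exact hP.2.2 _ (e i).2 _ (e' j).2
    · exact (hP.2.2 _ (e j).2 _ (e' i).2).symm
    · simp at h
  have hinj : Function.Injective g := by
    rintro (i | i) (j | j) h
    · exact congrArg Sum.inl (e.injective (Subtype.ext h))
    · exfalso
      have h' : (e i : V) = e' j := h
      have := (e' j).2
      rw [← h'] at this
      exact disj hP (e i).2 this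
    · exfalso
      have h' : (e' i : V) = e j := h
      have := (e' i).2
      rw [h'] at this
      exact disj hP (e j).2 this
    · exact congrArg Sum.inr (e'.injective (Subtype.ext h))
  refine ⟨⟨⟨g, fun {x y} h => hg x y h⟩, hinj⟩, fun a => ?_, fun a => ?_⟩
  · constructor
    · intro ha
      refine ⟨e.symm ⟨a, ha⟩, ?_⟩
      show (e (e.symm ⟨a, ha⟩) : V) = a
      rw [e.apply_symm_apply]
    · rintro ⟨i, rfl⟩
      exact (e i).2
  · constructor
    · intro ha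
      refine ⟨e'.symm ⟨a, ha⟩, ?_⟩
      show (e' (e'.symm ⟨a, ha⟩) : V) = a
      rw [e'.apply_symm_apply]
    · rintro ⟨i, rfl⟩
      exact (e' i).2

/-- the subgraph of a copy -/
theorem sub_eq {t : ℕ} {P : Finset V × Finset V} (f : (completeBipartiteGraph (Fin t) (Fin t)).Copy G)
    (h1 : ∀ a, a ∈ P.1 ↔ ∃ i, f (Sum.inl i) = a) (h2 : ∀ a, a ∈ P.2 ↔ ∃ i, f (Sum.inr i) = a) :
    sub G P = f.toSubgraph := by
  apply Subgraph.ext
  · ext a
    show (a ∈ P.1 ∨ a ∈ P.2) ↔ a ∈ f.toHom '' (⊤ : (completeBipartiteGraph (Fin t) (Fin t)).Subgraph).verts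
    rw [h1, h2]
    constructor
    · rintro (⟨i, rfl⟩ | ⟨i, rfl⟩)
      · exact ⟨Sum.inl i, trivial, rfl⟩
      · exact ⟨Sum.inr i, trivial, rfl⟩
    · rintro ⟨i | i, -, rfl⟩
      · exact Or.inl ⟨i, rfl⟩
      · exact Or.inr ⟨i, rfl⟩
  · funext a b
    apply propext
    show (G.Adj a b ∧ ((a ∈ P.1 ∧ b ∈ P.2) ∨ (a ∈ P.2 ∧ b ∈ P.1))) ↔
      Relation.Map (⊤ : (completeBipartiteGraph (Fin t) (Fin t)).Subgraph).Adj f.toHom f.toHom a b
    rw [h1, h2, h1, h2]
    constructor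
    · rintro ⟨-, ⟨⟨i, rfl⟩, ⟨j, rfl⟩⟩ | ⟨⟨i, rfl⟩, ⟨j, rfl⟩⟩⟩
      · refine ⟨Sum.inl i, Sum.inr j, ?_, rfl, rfl⟩
        rw [Subgraph.top_adj]
        simp
      · refine ⟨Sum.inr i, Sum.inl j, ?_, rfl, rfl⟩
        rw [Subgraph.top_adj]
        simp
    · rintro ⟨i | i, j | j, h, rfl, rfl⟩
      · rw [Subgraph.top_adj] at h
        simp at h
      · rw [Subgraph.top_adj] at h
        exact ⟨f.toHom.map_rel h, Or.inl ⟨⟨i, rfl⟩, ⟨j, rfl⟩⟩⟩
      · rw [Subgraph.top_adj] at h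
        exact ⟨f.toHom.map_rel h, Or.inr ⟨⟨i, rfl⟩, ⟨j, rfl⟩⟩⟩
      · rw [Subgraph.top_adj] at h
        simp at h

/-- a copy gives a pair -/
theorem exists_pair {t : ℕ} (f : (completeBipartiteGraph (Fin t) (Fin t)).Copy G) :
    ∃ P : Finset V × Finset V, IsBi t G P ∧ (∀ a, a ∈ P.1 ↔ ∃ i, f (Sum.inl i) = a) ∧
      ∀ a, a ∈ P.2 ↔ ∃ i, f (Sum.inr i) = a := by
  classical
  refine ⟨(univ.image fun i => f (Sum.inl i), univ.image fun i => f (Sum.inr i)), ⟨?_, ?_, ?_⟩, ?_, ?_⟩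
  · show (univ.image fun i => f (Sum.inl i)).card = t
    have hi : Function.Injective fun i : Fin t => f (Sum.inl i) :=
      fun i j h => Sum.inl_injective (f.injective h)
    rw [card_image_of_injective _ hi, card_univ, Fintype.card_fin]
  · show (univ.image fun i => f (Sum.inr i)).card = t
    have hi : Function.Injective fun i : Fin t => f (Sum.inr i) :=
      fun i j h => Sum.inr_injective (f.injective h)
    rw [card_image_of_injective _ hi, card_univ, Fintype.card_fin]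
  · intro a ha b hb
    obtain ⟨i, -, rfl⟩ := mem_image.1 ha
    obtain ⟨j, -, rfl⟩ := mem_image.1 hb
    exact f.toHom.map_rel (by simp : (completeBipartiteGraph (Fin t) (Fin t)).Adj (Sum.inl i) (Sum.inr j))
  · intro a
    simp
  · intro a
    simp

theorem t : StCopy := by
  classical
  intro V _ t ht G
  have hc : G.copyCount (completeBipartiteGraph (Fin t) (Fin t)) =
      ((univ.filter fun P : Finset V × Finset V => IsBi t G P).image (sub G)).card := by
    unfold copyCount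
    congr 1
    ext S
    rw [mem_filter, mem_image]
    constructor
    · rintro ⟨-, hS⟩
      have h1 : S ∈ Set.range (Copy.toSubgraph (A := completeBipartiteGraph (Fin t) (Fin t)) (B := G)) := by
        rw [Copy.range_toSubgraph]
        exact hS
      obtain ⟨f, rfl⟩ := h1
      obtain ⟨P, hP, h1, h2⟩ := exists_pair f
      exact ⟨P, mem_filter.2 ⟨mem_univ _, hP⟩, sub_eq f h1 h2⟩
    · rintro ⟨P, hP, rfl⟩
      obtain ⟨f, h1, h2⟩ := exists_copy (mem_filter.1 hP).2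
      rw [sub_eq f h1 h2]
      exact ⟨mem_univ _, ⟨f.isoToSubgraph⟩⟩
  rw [hc]
  unfold bi
  rw [card_eq_sum_card_image (sub G)]
  rw [sum_const_nat (m := 2), mul_comm]
  intro S hS
  obtain ⟨P, hP, rfl⟩ := mem_image.1 hS
  have hP' := (mem_filter.1 hP).2
  have h1 : ((univ.filter fun P : Finset V × Finset V => IsBi t G P).filter fun Q => sub G Q = sub G P) =
      {P, P.swap} := by
    ext Q
    rw [mem_filter, mem_filter, mem_insert, mem_singleton]
    constructor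
    · rintro ⟨⟨-, hQ⟩, h⟩
      exact eq_of_sub_eq ht hP' hQ h.symm
    · rintro (rfl | rfl)
      · exact ⟨⟨mem_univ _, hP'⟩, rfl⟩
      · exact ⟨⟨mem_univ _, isBi_swap hP'⟩, (sub_swap P).symm⟩
  rw [h1, card_pair (swap_ne ht hP')]

end Pool.Agent.K7.H8.KTCOPY
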