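import Pool.Agent.K7.H16.SG.Stm

set_option autoImplicit false

open Finset

namespace Pool.Agent.K7.H8.SGNUM

open Pool.Agent.K7.H16.SG

theorem c_zero : c 0 = 1 := by rw [c]

theorem c_succ (m : ℕ) : c (m + 1) = min (∑ i ∈ range (m + 1), c i * c (m - i))
    ((1 + 1 / ((m : ℚ) + 1)) / 2 * ∑ i ∈ range (m + 1), c i * c (m - i) + c m - c m / ((m : ℚ) + 1)) := by
  rw [c]
  rw [Fin.sum_univ_eq_sum_range (fun i => c i * c (m - i)) (m + 1)]

/-- symmetrisation -/
theorem symm_sum (m : ℕ) : ∑ p ∈ range (m + 1), (p : ℚ) * (c p * c (m - p)) =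
    (m : ℚ) / 2 * ∑ i ∈ range (m + 1), c i * c (m - i) := by
  have h1 : ∑ p ∈ range (m + 1), (p : ℚ) * (c p * c (m - p)) =
      ∑ p ∈ range (m + 1), ((m : ℚ) - p) * (c p * c (m - p)) := by
    rw [← Finset.sum_range_reflect]
    refine sum_congr rfl fun p hp => ?_
    rw [mem_range] at hp
    have e1 : m + 1 - 1 - p = m - p := by omega
    have e2 : m - (m - p) = p := by omega
    rw [e1, e2, Nat.cast_sub (by omega), mul_comm (c (m - p))]
  have h2 : ∑ p ∈ range (m + 1), (p : ℚ) * (c p * c (m - p)) +
      ∑ p ∈ range (m + 1), ((m : ℚ) - p) * (c p * c (m - p)) =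
      (m : ℚ) * ∑ i ∈ range (m + 1), c i * c (m - i) := by
    rw [← sum_add_distrib, mul_sum]
    refine sum_congr rfl fun p _ => ?_
    ring
  rw [← h1] at h2
  linarith

theorem sum_pow (A : Finset ℕ) (g : ℕ → ℚ) :
    ∑ B ∈ A.powerset, g B.card = ∑ k ∈ range (A.card + 1), (A.card.choose k : ℚ) * g k := by
  rw [Finset.sum_powerset_apply_card]
  simp only [nsmul_eq_mul]

theorem fact_choose {n k : ℕ} (h : k ≤ n) :
    (n.choose k : ℚ) * ((k.factorial : ℚ) * ((n - k).factorial : ℚ)) = (n.factorial : ℚ) := by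
  rw [← Nat.choose_mul_factorial_mul_factorial h]
  push_cast
  ring

theorem main (hR1 : StRec1) (hR2 : StRec2) (hW : StW) :
    ∀ n : ℕ, ∀ A : Finset ℕ, A.card = n → (D A : ℚ) ≤ n.factorial * c n := by
  intro n
  induction n using Nat.strong_induction_on with
  | _ n ih =>
    intro A hA
    rcases n with _ | m
    · rw [card_eq_zero] at hA
      subst hA
      rw [hW.2.2.2, c_zero]
      norm_num
    have hne : A.Nonempty := by rw [← card_pos]; omega
    obtain ⟨M, hM⟩ : ∃ M, M = A.max' hne := ⟨_, rfl⟩
    have hMA : M ∈ A := hM ▸ A.max'_mem hne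
    obtain ⟨A', hA'⟩ : ∃ A', A' = A.erase M := ⟨_, rfl⟩
    have hins : insert M A' = A := by rw [hA', insert_erase hMA]
    have hlt : ∀ a ∈ A', a < M := by
      intro a ha
      rw [hA', mem_erase] at ha
      exact lt_of_le_of_ne (hM ▸ A.le_max' a ha.2) ha.1
    have hcard : A'.card = m := by rw [hA', card_erase_of_mem hMA, hA]; rfl
    have hsub : ∀ {X B : Finset ℕ}, B ⊆ X → (X \ B).card = X.card - B.card := fun h =>
      card_sdiff_of_subset h
    -- the first bound
    have b1 : (D A : ℚ) ≤ (m + 1).factorial * ∑ i ∈ range (m + 1), c i * c (m - i) := by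
      have h1 := hR1 A' M hlt
      rw [hins, hcard] at h1
      have h2 : (D A : ℚ) ≤ ((m : ℚ) + 1) * ∑ B ∈ A'.powerset, (D B : ℚ) * (D (A' \ B) : ℚ) := by
        exact_mod_cast h1
      refine h2.trans ?_
      have h3 : ∑ B ∈ A'.powerset, (D B : ℚ) * (D (A' \ B) : ℚ) ≤
          ∑ B ∈ A'.powerset, ((B.card.factorial : ℚ) * c B.card) *
            (((m - B.card).factorial : ℚ) * c (m - B.card)) := by
        refine sum_le_sum fun B hB => ?_
        have hB' := mem_powerset.1 hB
        have hc := card_le_card hB'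
        refine mul_le_mul (ih _ (by omega) B rfl) (ih _ (by omega) _ (by rw [hsub hB', hcard]))
          (Nat.cast_nonneg _) ((Nat.cast_nonneg _).trans (ih _ (by omega) B rfl))
      have h4 := sum_pow A' (fun k => ((k.factorial : ℚ) * c k) *
            (((m - k).factorial : ℚ) * c (m - k)))
      rw [h4, hcard] at h3
      have h5 : ∑ k ∈ range (m + 1), (m.choose k : ℚ) * (((k.factorial : ℚ) * c k) *
            (((m - k).factorial : ℚ) * c (m - k))) =
          (m.factorial : ℚ) * ∑ i ∈ range (m + 1), c i * c (m - i) := by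
        rw [mul_sum]
        refine sum_congr rfl fun k hk => ?_
        rw [mem_range] at hk
        rw [← fact_choose (show k ≤ m by omega)]
        ring
      rw [h5] at h3
      rw [Nat.factorial_succ]
      push_cast
      have h6 : (0 : ℚ) ≤ (m : ℚ) + 1 := by positivity
      calc ((m : ℚ) + 1) * ∑ B ∈ A'.powerset, (D B : ℚ) * (D (A' \ B) : ℚ) ≤
          ((m : ℚ) + 1) * ((m.factorial : ℚ) * ∑ i ∈ range (m + 1), c i * c (m - i)) :=
            mul_le_mul_of_nonneg_left h3 h6
        _ = _ := by ring
    -- the second bound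
    have b2 : (D A : ℚ) ≤ (m + 1).factorial * ((1 + 1 / ((m : ℚ) + 1)) / 2 *
        ∑ i ∈ range (m + 1), c i * c (m - i) + c m - c m / ((m : ℚ) + 1)) := by
      rcases m with _ | n
      · refine b1.trans (le_of_eq ?_)
        simp [c_zero]
      have hne' : A'.Nonempty := by rw [← card_pos]; omega
      obtain ⟨M', hM'⟩ : ∃ M', M' = A'.max' hne' := ⟨_, rfl⟩
      have hMA' : M' ∈ A' := hM' ▸ A'.max'_mem hne'
      obtain ⟨X, hX⟩ : ∃ X, X = A'.erase M' := ⟨_, rfl⟩
      have hins' : insert M' X = A' := by rw [hX, insert_erase hMA']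
      have hM'X : M' ∉ X := by rw [hX]; exact notMem_erase _ _
      have hlt' : ∀ a ∈ X, a < M' := by
        intro a ha
        rw [hX, mem_erase] at ha
        exact lt_of_le_of_ne (hM' ▸ A'.le_max' a ha.2) ha.1
      have hcard' : X.card = n := by rw [hX, card_erase_of_mem hMA', hcard]; rfl
      have h1 := hR2 X M' M hlt' (hlt M' hMA')
      rw [hins', hins, hcard'] at h1
      have h2 : (D A : ℚ) ≤ ∑ B ∈ X.powerset.erase X, (D (insert M' B) : ℚ) * (D (X \ B) : ℚ) +
          ((n : ℚ) + 2) * (∑ B ∈ X.powerset, (D B : ℚ) * (D (insert M' (X \ B)) : ℚ) + (D A' : ℚ)) := by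
        exact_mod_cast h1
      have hnot : ∀ B, B ⊆ X → M' ∉ B := fun B hB h => hM'X (hB h)
      -- first sum
      have h3 : ∑ B ∈ X.powerset.erase X, (D (insert M' B) : ℚ) * (D (X \ B) : ℚ) ≤
          ∑ B ∈ X.powerset.erase X, (((B.card + 1).factorial : ℚ) * c (B.card + 1)) *
            (((n - B.card).factorial : ℚ) * c (n - B.card)) := by
        refine sum_le_sum fun B hB => ?_
        rw [mem_erase, mem_powerset] at hB
        have hc := card_le_card hB.2
        have i1 := ih (B.card + 1) (by omega) (insert M' B) (card_insert_of_notMem (hnot B hB.2))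
        have i2 := ih (n - B.card) (by omega) (X \ B) (by rw [hsub hB.2, hcard'])
        exact mul_le_mul i1 i2 (Nat.cast_nonneg _) ((Nat.cast_nonneg _).trans i1)
      have h4 : ∑ B ∈ X.powerset, (D B : ℚ) * (D (insert M' (X \ B)) : ℚ) ≤
          ∑ B ∈ X.powerset, (((B.card).factorial : ℚ) * c (B.card)) *
            (((n - B.card + 1).factorial : ℚ) * c (n - B.card + 1)) := by
        refine sum_le_sum fun B hB => ?_
        rw [mem_powerset] at hB
        have hc := card_le_card hB
        have i1 := ih (B.card) (by omega) B rfl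
        have i2 := ih (n - B.card + 1) (by omega) (insert M' (X \ B)) (by
          rw [card_insert_of_notMem (hnot _ sdiff_subset), hsub hB, hcard'])
        exact mul_le_mul i1 i2 (Nat.cast_nonneg _) ((Nat.cast_nonneg _).trans i1)
      have h5 : (D A' : ℚ) ≤ ((n + 1).factorial : ℚ) * c (n + 1) := ih (n + 1) (by omega) A' hcard
      -- evaluation
      have e3 : ∑ B ∈ X.powerset.erase X, (((B.card + 1).factorial : ℚ) * c (B.card + 1)) *
            (((n - B.card).factorial : ℚ) * c (n - B.card)) =
          (n.factorial : ℚ) * (∑ p ∈ range (n + 1 + 1), (p : ℚ) * (c p * c (n + 1 - p)) -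
            ((n : ℚ) + 1) * c (n + 1)) := by
        have e31 := Finset.sum_erase_add X.powerset (fun B => (((B.card + 1).factorial : ℚ) * c (B.card + 1)) *
            (((n - B.card).factorial : ℚ) * c (n - B.card))) (mem_powerset.2 (Subset.refl X))
        have e32 := sum_pow X (fun k => (((k + 1).factorial : ℚ) * c (k + 1)) *
            (((n - k).factorial : ℚ) * c (n - k)))
        rw [hcard'] at e32
        have e33 : ∑ k ∈ range (n + 1), (n.choose k : ℚ) * ((((k + 1).factorial : ℚ) * c (k + 1)) *
            (((n - k).factorial : ℚ) * c (n - k))) =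
            (n.factorial : ℚ) * ∑ p ∈ range (n + 1 + 1), (p : ℚ) * (c p * c (n + 1 - p)) := by
          rw [Finset.sum_range_succ' (fun p => (p : ℚ) * (c p * c (n + 1 - p))) (n + 1)]
          simp only [Nat.cast_zero, zero_mul, add_zero]
          rw [mul_sum]
          refine sum_congr rfl fun k hk => ?_
          rw [mem_range] at hk
          rw [← fact_choose (show k ≤ n by omega), Nat.factorial_succ]
          have : n + 1 - (k + 1) = n - k := by omega
          rw [this]
          push_cast
          ring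
        rw [e32, e33] at e31
        simp only [hcard', Nat.sub_self, Nat.factorial_zero, Nat.cast_one, one_mul, c_zero, mul_one] at e31
        rw [mul_sub, ← e31, Nat.factorial_succ]
        push_cast
        ring
      have e4 : ∑ B ∈ X.powerset, (((B.card).factorial : ℚ) * c (B.card)) *
            (((n - B.card + 1).factorial : ℚ) * c (n - B.card + 1)) =
          (n.factorial : ℚ) * ∑ p ∈ range (n + 1 + 1), (p : ℚ) * (c p * c (n + 1 - p)) := by
        have e42 := sum_pow X (fun k => ((k.factorial : ℚ) * c k) *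
            (((n - k + 1).factorial : ℚ) * c (n - k + 1)))
        rw [hcard'] at e42
        rw [e42, ← Finset.sum_range_reflect, Finset.sum_range_succ' (fun p => (p : ℚ) * (c p * c (n + 1 - p))) (n + 1)]
        simp only [Nat.cast_zero, zero_mul, add_zero]
        rw [mul_sum]
        refine sum_congr rfl fun k hk => ?_
        rw [mem_range] at hk
        have e5 : n + 1 - 1 - k = n - k := by omega
        have e6 : n - (n - k) = k := by omega
        have e7 : n + 1 - (k + 1) = n - k := by omega
        rw [e5, e6, e7, ← fact_choose (show n - k ≤ n by omega), e6, Nat.factorial_succ]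
        push_cast
        ring
      rw [e3] at h3
      rw [e4] at h4
      have hs := symm_sum (n + 1)
      rw [hs] at h3 h4
      set T := ∑ i ∈ range (n + 1 + 1), c i * c (n + 1 - i) with hT
      have hn : (0 : ℚ) < (n : ℚ) + 1 := by positivity
      have hn2 : (0 : ℚ) < (n : ℚ) + 2 := by positivity
      have key : (D A : ℚ) ≤ (n.factorial : ℚ) * ((((n + 1 : ℕ) : ℚ)) / 2 * T - ((n : ℚ) + 1) * c (n + 1)) +
          ((n : ℚ) + 2) * ((n.factorial : ℚ) * ((((n + 1 : ℕ) : ℚ)) / 2 * T) +
            ((n + 1).factorial : ℚ) * c (n + 1)) :=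
        h2.trans (add_le_add h3 (mul_le_mul_of_nonneg_left (add_le_add h4 h5) hn2.le))
      refine key.trans (le_of_eq ?_)
      rw [Nat.factorial_succ (n + 1), Nat.factorial_succ n]
      push_cast
      field_simp
      ring
    rw [c_succ]
    rcases min_choice (∑ i ∈ range (m + 1), c i * c (m - i)) ((1 + 1 / ((m : ℚ) + 1)) / 2 *
        ∑ i ∈ range (m + 1), c i * c (m - i) + c m - c m / ((m : ℚ) + 1)) with h | h
    · rw [h]; exact b1
    · rw [h]; exact b2

theorem t (hR1 : StRec1) (hR2 : StRec2) (hW : StW) : StNum := fun A => main hR1 hR2 hW A.card A rfl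

end Pool.Agent.K7.H8.SGNUM
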