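import Pool.Agent.K7.H7.TB.Stm

/-!
# Project TB, job MEAS: the radial measures
-/

set_option autoImplicit false

open MeasureTheory Metric Set

namespace Pool.Agent.K7.H8.TBMEAS

open Pool.Agent.K7.H7.TB

/-- the measure with the weights `c` -/
noncomputable def mu (c : ℕ → ℝ) : Measure E :=
  Measure.sum fun j : ℕ => ENNReal.ofReal (c j * wt j) • volume.restrict (ball (0 : E) (j + 1))

theorem wt_pos (j : ℕ) : 0 < wt j := by
  unfold wt
  positivity

theorem mu_apply (c : ℕ → ℝ) {S : Set E} (hS : MeasurableSet S) :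
    mu c S = ∑' j : ℕ, ENNReal.ofReal (c j * wt j) * volume (S ∩ ball (0 : E) (j + 1)) := by
  unfold mu
  rw [Measure.sum_apply _ hS]
  refine tsum_congr fun j => ?_
  rw [Measure.smul_apply, Measure.restrict_apply hS, smul_eq_mul]

/-- volume of balls about the origin -/
theorem vol_ball (j : ℕ) : (volume (ball (0 : E) (j + 1))).toReal =
    ((j : ℝ) + 1) ^ 3 * (volume (ball (0 : E) 1)).toReal := by
  have h := Measure.addHaar_ball (volume : Measure E) 0 (r := (j : ℝ) + 1) (by positivity)
  rw [h, finrank_euclideanSpace, Fintype.card_fin, ENNReal.toReal_mul,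
    ENNReal.toReal_ofReal (by positivity)]

theorem map_eq (c : ℕ → ℝ) (L : E ≃ₗᵢ[ℝ] E) :
    (mu c).map L.toHomeomorph.toMeasurableEquiv = mu c := by
  ext S hS
  rw [MeasurableEquiv.map_apply, mu_apply c hS,
    mu_apply c (L.toHomeomorph.toMeasurableEquiv.measurable hS)]
  refine tsum_congr fun j => ?_
  congr 1
  have h1 : (L.toHomeomorph.toMeasurableEquiv ⁻¹' S) ∩ ball (0 : E) (j + 1) =
      L ⁻¹' (S ∩ ball (0 : E) (j + 1)) := by
    ext x
    simp only [mem_inter_iff, mem_preimage, mem_ball_zero_iff, L.norm_map]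
    rfl
  rw [h1]
  exact (L.measurePreserving).measure_preimage (hS.inter measurableSet_ball).nullMeasurableSet

theorem mu_image (c : ℕ → ℝ) (L : E ≃ₗᵢ[ℝ] E) (T : Set E) : mu c (L '' T) = mu c T := by
  conv_lhs => rw [← map_eq c L]
  rw [MeasurableEquiv.map_apply]
  congr 1
  have h1 : (L.toHomeomorph.toMeasurableEquiv : E → E) = L := rfl
  rw [h1, preimage_image_eq T L.injective]

theorem isClosed_torus (S : Set E) (α : ℝ) : IsClosed (torus S α) :=
  isClosed_le (continuous_infDist_pt S) continuous_const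

theorem t : StMeas := by
  intro c hc
  set V : ℝ := (volume (ball (0 : E) 1)).toReal with hV
  have hV0 : 0 ≤ V := ENNReal.toReal_nonneg
  have hcw : ∀ j, 0 ≤ c j * wt j := fun j =>
    mul_nonneg (by linarith [(hc j).1]) (wt_pos j).le
  -- the bound of the terms
  have hsum2 : Summable fun j : ℕ => 2 * V * (1 / ((j : ℝ) + 1) ^ 2) := by
    refine Summable.mul_left _ ?_
    have h := (summable_nat_add_iff 1).2 (Real.summable_one_div_nat_pow.2 (one_lt_two))
    refine h.congr fun j => ?_
    push_cast
    rfl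
  have hterm : ∀ j : ℕ, c j * wt j * (volume (ball (0 : E) (j + 1))).toReal ≤
      2 * V * (1 / ((j : ℝ) + 1) ^ 2) := by
    intro j
    rw [vol_ball]
    have hj : (0 : ℝ) < (j : ℝ) + 1 := by positivity
    have h1 : wt j * ((j : ℝ) + 1) ^ 3 = 1 / ((j : ℝ) + 1) ^ 2 := by
      unfold wt
      field_simp
    calc c j * wt j * (((j : ℝ) + 1) ^ 3 * V) = c j * (V * (wt j * ((j : ℝ) + 1) ^ 3)) := by ring
      _ ≤ 2 * (V * (wt j * ((j : ℝ) + 1) ^ 3)) := by
        refine mul_le_mul_of_nonneg_right (hc j).2 ?_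
        have := wt_pos j
        positivity
      _ = _ := by rw [h1]; ring
  have hle : ∀ (S : Set E) (j : ℕ), (volume (S ∩ ball (0 : E) (j + 1))).toReal ≤
      (volume (ball (0 : E) (j + 1))).toReal := fun S j =>
    ENNReal.toReal_mono measure_ball_lt_top.ne (measure_mono inter_subset_right)
  have hsumS : ∀ S : Set E, Summable fun j : ℕ =>
      c j * wt j * (volume (S ∩ ball (0 : E) (j + 1))).toReal := by
    intro S
    refine Summable.of_nonneg_of_le (fun j => mul_nonneg (hcw j) ENNReal.toReal_nonneg) (fun j => ?_)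
      hsum2
    exact (mul_le_mul_of_nonneg_left (hle S j) (hcw j)).trans (hterm j)
  have hval : ∀ S : Set E, MeasurableSet S → mu c S =
      ENNReal.ofReal (∑' j : ℕ, c j * wt j * (volume (S ∩ ball (0 : E) (j + 1))).toReal) := by
    intro S hS
    rw [mu_apply c hS, ENNReal.ofReal_tsum_of_nonneg
      (fun j => mul_nonneg (hcw j) ENNReal.toReal_nonneg) (hsumS S)]
    refine tsum_congr fun j => ?_
    rw [ENNReal.ofReal_mul (hcw j), ENNReal.ofReal_toReal]
    exact ((measure_mono inter_subset_right).trans_lt measure_ball_lt_top).ne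
  refine ⟨mu c, ?_, ?_, fun L T => mu_image c L T, ?_⟩
  · constructor
    rw [hval univ MeasurableSet.univ]
    exact ENNReal.ofReal_lt_top
  · intro S hS
    unfold mu
    rw [Measure.sum_apply_eq_zero]
    intro j
    rw [Measure.smul_apply, smul_eq_mul]
    have h1 : (volume.restrict (ball (0 : E) (j + 1))) S = 0 :=
      Measure.absolutelyContinuous_of_le Measure.restrict_le_self hS
    rw [h1, mul_zero]
  · intro p hp
    have hT : MeasurableSet (T0 p) := (isClosed_torus _ _).measurableSet
    rw [hval _ hT, hval _ MeasurableSet.univ] at hp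
    have h1 := congrArg ENNReal.toReal hp
    rw [ENNReal.toReal_mul, ENNReal.toReal_ofReal, ENNReal.toReal_ofReal, ENNReal.toReal_ofNat] at h1
    · have h2 : ∀ j : ℕ, c j * (wt j * b j p) =
          c j * wt j * (volume (T0 p ∩ ball (0 : E) (j + 1))).toReal -
          1 / 2 * (c j * wt j * (volume (univ ∩ ball (0 : E) (j + 1))).toReal) := by
        intro j
        unfold b
        rw [univ_inter]
        ring
      rw [tsum_congr h2, (hsumS (T0 p)).tsum_sub ((hsumS univ).mul_left _), tsum_mul_left]
      linarith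
    · exact tsum_nonneg fun j => mul_nonneg (hcw j) ENNReal.toReal_nonneg
    · exact tsum_nonneg fun j => mul_nonneg (hcw j) ENNReal.toReal_nonneg

end Pool.Agent.K7.H8.TBMEAS
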