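import Pool.Agent.K7.H7.TB.Stm

/-!
# Project TB, job NORM: every regular torus is in standard position up to a linear isometry
-/

set_option autoImplicit false

open MeasureTheory Metric Set

namespace Pool.Agent.K7.H8.TBNORM

open Pool.Agent.K7.H7.TB

theorem polar (x y : ℝ) : ∃ s φ : ℝ, x = s * Real.cos φ ∧ y = s * Real.sin φ := by
  refine ⟨‖(⟨x, y⟩ : ℂ)‖, Complex.arg ⟨x, y⟩, ?_, ?_⟩
  · exact (Complex.norm_mul_cos_arg (⟨x, y⟩ : ℂ)).symm
  · exact (Complex.norm_mul_sin_arg (⟨x, y⟩ : ℂ)).symm

theorem torus_image (L : E ≃ₗᵢ[ℝ] E) (S : Set E) (α : ℝ) : torus (L '' S) α = L '' torus S α := by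
  ext y
  constructor
  · intro hy
    refine ⟨L.symm y, ?_, L.apply_symm_apply y⟩
    have h1 : infDist (L (L.symm y)) (L '' S) = infDist (L.symm y) S := infDist_image L.isometry
    rw [L.apply_symm_apply] at h1
    have hy' : infDist y (L '' S) ≤ α := hy
    rw [h1] at hy'
    exact hy'
  · rintro ⟨x, hx, rfl⟩
    have hx' : infDist x S ≤ α := hx
    have h1 : infDist (L x) (L '' S) = infDist x S := infDist_image L.isometry
    show infDist (L x) (L '' S) ≤ α
    rw [h1]
    exact hx'

theorem t : StNorm := by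
  rintro T ⟨S, α, ⟨c, u, w, r, hu, hw, huw, hr, rfl⟩, hα, rfl⟩
  obtain ⟨s, φ, hx, hy⟩ := polar (inner ℝ u c) (inner ℝ w c)
  have huu : inner ℝ u u = (1 : ℝ) := by rw [real_inner_self_eq_norm_sq, hu]; norm_num
  have hww : inner ℝ w w = (1 : ℝ) := by rw [real_inner_self_eq_norm_sq, hw]; norm_num
  have hwu : inner ℝ w u = (0 : ℝ) := by rw [real_inner_comm]; exact huw
  have hcs := Real.cos_sq_add_sin_sq φ
  set u' : E := Real.cos φ • u + Real.sin φ • w with hu'
  set w' : E := (-Real.sin φ) • u + Real.cos φ • w with hw'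
  have e1 : inner ℝ u' u' = (1 : ℝ) := by
    rw [hu']
    simp only [inner_add_left, inner_add_right, real_inner_smul_left, real_inner_smul_right, huu,
      hww, huw, hwu]
    nlinarith [hcs]
  have e2 : inner ℝ w' w' = (1 : ℝ) := by
    rw [hw']
    simp only [inner_add_left, inner_add_right, real_inner_smul_left, real_inner_smul_right, huu,
      hww, huw, hwu]
    nlinarith [hcs]
  have e3 : inner ℝ u' w' = (0 : ℝ) := by
    rw [hu', hw']
    simp only [inner_add_left, inner_add_right, real_inner_smul_left, real_inner_smul_right, huu,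
      hww, huw, hwu]
    ring
  have e4 : inner ℝ u' c = s := by
    rw [hu']
    simp only [inner_add_left, real_inner_smul_left, hx, hy]
    calc Real.cos φ * (s * Real.cos φ) + Real.sin φ * (s * Real.sin φ) =
        s * (Real.cos φ ^ 2 + Real.sin φ ^ 2) := by ring
      _ = s := by rw [hcs, mul_one]
  have e5 : inner ℝ w' c = (0 : ℝ) := by
    rw [hw']
    simp only [inner_add_left, real_inner_smul_left, hx, hy]
    ring
  -- an orthonormal basis
  have hon : Orthonormal ℝ (Set.domRestrict ({0, 1} : Set (Fin 3)) (![u', w', 0] : Fin 3 → E)) := by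
    rw [orthonormal_iff_ite]
    rintro ⟨i, hi⟩ ⟨j, hj⟩
    rcases hi with rfl | hi <;> rcases hj with rfl | hj
    · rw [if_pos rfl]
      exact e1
    · rw [Set.mem_singleton_iff] at hj
      subst hj
      rw [if_neg (fun h => absurd (congrArg Subtype.val h) (show ¬ (0 : Fin 3) = 1 by decide))]
      exact e3
    · rw [Set.mem_singleton_iff] at hi
      subst hi
      rw [if_neg (fun h => absurd (congrArg Subtype.val h) (show ¬ (1 : Fin 3) = 0 by decide))]
      have e3' : inner ℝ w' u' = (0 : ℝ) := by rw [real_inner_comm]; exact e3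
      exact e3'
    · rw [Set.mem_singleton_iff] at hi hj
      subst hi
      subst hj
      rw [if_pos rfl]
      exact e2
  obtain ⟨bb, hbb⟩ := hon.exists_orthonormalBasis_extension_of_card_eq
    (by rw [finrank_euclideanSpace, Fintype.card_fin])
  have b0 : bb 0 = u' := by simpa using hbb 0 (by simp)
  have b1 : bb 1 = w' := by simpa using hbb 1 (by simp)
  set L : E ≃ₗᵢ[ℝ] E := bb.repr with hL
  have L0 : L u' = e 0 := by rw [← b0]; exact bb.repr_self 0
  have L1 : L w' = e 1 := by rw [← b1]; exact bb.repr_self 1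
  have L2 : L (bb 2) = e 2 := bb.repr_self 2
  have hc : c = s • u' + inner ℝ (bb 2) c • bb 2 := by
    have h := bb.sum_repr' c
    rw [Fin.sum_univ_three, b0, b1, e4, e5, zero_smul, add_zero] at h
    exact h.symm
  have hLc : L c = s • e 0 + inner ℝ (bb 2) c • e 2 := by
    conv_lhs => rw [hc]
    rw [map_add, map_smul, map_smul, L0, L2]
  have hu2 : u = Real.cos φ • u' + (-Real.sin φ) • w' := by
    rw [hu', hw', smul_add, smul_add, smul_smul, smul_smul, smul_smul, smul_smul]
    have h1 : Real.cos φ * Real.cos φ + -Real.sin φ * -Real.sin φ = 1 := by nlinarith [hcs]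
    have h2 : Real.cos φ * Real.sin φ + -Real.sin φ * Real.cos φ = 0 := by ring
    calc u = (Real.cos φ * Real.cos φ + -Real.sin φ * -Real.sin φ) • u +
        (Real.cos φ * Real.sin φ + -Real.sin φ * Real.cos φ) • w := by
          rw [h1, h2, one_smul, zero_smul, add_zero]
      _ = _ := by rw [add_smul, add_smul]; abel
  have hw2 : w = Real.sin φ • u' + Real.cos φ • w' := by
    rw [hu', hw', smul_add, smul_add, smul_smul, smul_smul, smul_smul, smul_smul]
    have h1 : Real.sin φ * Real.sin φ + Real.cos φ * Real.cos φ = 1 := by nlinarith [hcs]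
    have h2 : Real.sin φ * Real.cos φ + Real.cos φ * -Real.sin φ = 0 := by ring
    calc w = (Real.sin φ * Real.cos φ + Real.cos φ * -Real.sin φ) • u +
        (Real.sin φ * Real.sin φ + Real.cos φ * Real.cos φ) • w := by
          rw [h1, h2, one_smul, zero_smul, zero_add]
      _ = _ := by rw [add_smul, add_smul]; abel
  have hLu : L u = Real.cos φ • e 0 + (-Real.sin φ) • e 1 := by
    conv_lhs => rw [hu2]
    rw [map_add, map_smul, map_smul, L0, L1]
  have hLw : L w = Real.sin φ • e 0 + Real.cos φ • e 1 := by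
    conv_lhs => rw [hw2]
    rw [map_add, map_smul, map_smul, L0, L1]
  have key : ∀ t : ℝ, L (c + r • (Real.cos t • u + Real.sin t • w)) =
      (s • e 0 + inner ℝ (bb 2) c • e 2) + r • (Real.cos (t - φ) • e 0 + Real.sin (t - φ) • e 1) := by
    intro t
    rw [map_add, map_smul, map_add, map_smul, map_smul, hLc, hLu, hLw, Real.cos_sub, Real.sin_sub]
    congr 2
    rw [smul_add, smul_add, smul_smul, smul_smul, smul_smul, smul_smul, add_smul, sub_smul, mul_neg,
      neg_smul, mul_comm (Real.sin t) (Real.cos φ)]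
    rw [mul_comm (Real.cos φ) (Real.sin t)]
    abel
  refine ⟨L, ![s, inner ℝ (bb 2) c, r, α], ?_, ?_, ?_⟩
  · simpa using hr
  · simpa using hα
  · have hS : S0 ![s, inner ℝ (bb 2) c, r, α] = L '' circle c u w r := by
      ext y
      constructor
      · rintro ⟨t, ht⟩
        refine ⟨c + r • (Real.cos (t + φ) • u + Real.sin (t + φ) • w), ⟨t + φ, rfl⟩, ?_⟩
        rw [key, add_sub_cancel_right, ht]
        rfl
      · rintro ⟨x, ⟨t, rfl⟩, rfl⟩
        refine ⟨t - φ, ?_⟩
        rw [key]
        rfl
    show torus (S0 _) _ = _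
    rw [hS, torus_image]
    rfl

end Pool.Agent.K7.H8.TBNORM
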